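import Mathlib

set_option autoImplicit false
set_option linter.unusedVariables false

namespace Pool.Agent.Results.MP_4cc90a_co.Counter

section defs
variable {L : Type} [Lattice L] [BoundedOrder L]

/-- The atoms of `L`. -/
abbrev Atom (L : Type) [Lattice L] [BoundedOrder L] : Type := {s : L // IsAtom s}

/-- `rk` is a rank function, so `L` is graded. -/
def Graded (rk : L → ℕ) : Prop := rk ⊥ = 0 ∧ ∀ x y : L, x ⋖ y → rk y = rk x + 1

/-- `φ` restricted to `[x, z]` is a rank- and color-preserving embedding into `L`. -/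
def Emb (rk : L → ℕ) (c : L → L → Atom L) (x z : L) (φ : L → L) : Prop :=
  (∀ u ∈ Set.Icc x z, ∀ v ∈ Set.Icc x z, φ u ≤ φ v ↔ u ≤ v) ∧
  (∀ u ∈ Set.Icc x z, rk (φ u) + rk x = rk u) ∧
  ∀ u ∈ Set.Icc x z, ∀ v ∈ Set.Icc x z, u ⋖ v → φ u ⋖ φ v ∧ c (φ u) (φ v) = c u v

/-- Pre-upho colorings; only the values of `c` on covers matter. -/
def PreUpho (rk : L → ℕ) (c : L → L → Atom L) : Prop :=
  (∀ s : Atom L, c ⊥ s.1 = s) ∧
  ∀ x : L, x ≠ ⊥ → x ≠ ⊤ → ∀ z, IsLUB {y | x ⋖ y} z → ∃ φ, Emb rk c x z φ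

/-- The word of colors along a chain. -/
def word (c : L → L → Atom L) (l : List L) : FreeMonoid (Atom L) :=
  FreeMonoid.ofList (List.zipWith c l l.tail)

/-- `⊥ ⋖ s ⋖ ⋯ ⋖ z` is a saturated chain. -/
def Sat (s : L) (l : List L) (z : L) : Prop :=
  List.IsChain (· ⋖ ·) (⊥ :: s :: l) ∧ l.getLastD s = z

/-- The defining relations. -/
def Rel (c : L → L → Atom L) (w w' : FreeMonoid (Atom L)) : Prop :=
  ∃ (s t : Atom L) (l l' : List L), Sat s.1 l (s.1 ⊔ t.1) ∧ Sat t.1 l' (s.1 ⊔ t.1) ∧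
    w = word c (⊥ :: s.1 :: l) ∧ w' = word c (⊥ :: t.1 :: l')

theorem len {rk : L → ℕ} (h : Graded rk) (l : List L) : ∀ s, List.IsChain (· ⋖ ·) (s :: l) →
    rk (l.getLastD s) = rk s + l.length := by
  induction l with
  | nil => simp
  | cons a l ih =>
    intro s hs
    rw [List.isChain_cons_cons] at hs
    rw [List.getLastD_cons, ih a hs.2, h.2 _ _ hs.1, List.length_cons]; omega

/-- Words of length at most one are alone in their classes. -/
def short (α : Type) : Con (FreeMonoid α) where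
  r w w' := w.length = w'.length ∧ (w.length ≤ 1 → w = w')
  iseqv := ⟨fun _ => ⟨rfl, fun _ => rfl⟩, fun h => ⟨h.1.symm, fun e => (h.2 (h.1 ▸ e)).symm⟩,
    fun h h' => ⟨h.1.trans h'.1, fun e => (h.2 e).trans (h'.2 (h.1 ▸ e))⟩⟩
  mul' h h' := by
    simp only [FreeMonoid.length_mul]
    exact ⟨by rw [h.1, h'.1], fun e => by rw [h.2 (by omega), h'.2 (by omega)]⟩

theorem rel_short {rk : L → ℕ} (h : Graded rk) (c : L → L → Atom L) : conGen (Rel c) ≤ short _ := by
  refine Con.conGen_le.2 ?_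
  rintro _ _ ⟨s, t, l, l', h1, h2, rfl, rfl⟩
  have a1 := len h (s.1 :: l) ⊥ h1.1
  have a2 := len h (t.1 :: l') ⊥ h2.1
  rw [List.getLastD_cons, h1.2] at a1
  rw [List.getLastD_cons, h2.2, a1] at a2
  have e : l.length = l'.length := by simpa using a2
  refine ⟨by simp [word, FreeMonoid.length, e], fun hl => ?_⟩
  obtain rfl : l = [] := by simpa [word, FreeMonoid.length] using hl
  obtain rfl : l' = [] := by simpa using e.symm
  rw [show s.1 = t.1 from h1.2.trans h2.2.symm]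

end defs

def LL : Type := Fin 19

instance : DecidableEq LL := inferInstanceAs (DecidableEq (Fin 19))
instance : Fintype LL := inferInstanceAs (Fintype (Fin 19))

def el (n : Fin 19) : LL := n

def mask (x : LL) : ℕ :=
  [0, 1, 2, 4, 8, 16, 32, 64, 3, 6, 5, 24, 104, 144, 259, 518, 1029, 248, 2047].getD (Fin.val x) 0

def le (x y : LL) : Bool := mask x &&& mask y == mask x

def sp (x y : LL) : LL := ((List.finRange 19).find? fun z => le x z && le y z).getD x

def nf (x y : LL) : LL := ((List.finRange 19).reverse.find? fun z => le z x && le z y).getD x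

instance : Lattice LL where
  le x y := le x y = true
  le_refl := by decide +kernel
  le_trans := by decide +kernel
  le_antisymm := by decide +kernel
  sup := sp
  inf := nf
  le_sup_left := by decide +kernel
  le_sup_right := by decide +kernel
  sup_le := by decide +kernel
  inf_le_left := by decide +kernel
  inf_le_right := by decide +kernel
  le_inf := by decide +kernel

instance : DecidableLE LL := fun x y => inferInstanceAs (Decidable (_ = true))
instance : DecidableLT LL := fun x y => inferInstanceAs (Decidable (x ≤ y ∧ ¬ y ≤ x))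

instance : BoundedOrder LL where
  top := el 18
  bot := el 0
  le_top := by decide +kernel
  bot_le := by decide +kernel

instance (x y : LL) : Decidable (x ⋖ y) := inferInstanceAs (Decidable (x < y ∧ ∀ c, x < c → ¬ c < y))
instance (x : LL) : Decidable (IsAtom x) := inferInstanceAs (Decidable (x ≠ ⊥ ∧ ∀ b, b < x → b = ⊥))

def rk (x : LL) : ℕ := [0, 1, 1, 1, 1, 1, 1, 1, 2, 2, 2, 2, 2, 2, 3, 3, 3, 3, 4].getD (Fin.val x) 0

def c0 (x y : LL) : LL :=
  if x = el 0 ∧ rk y = 1 then y else if (x, y) ∈ [(el 2, el 8), (el 3, el 10), (el 1, el 10)] then el 5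
  else if (x, y) = (el 4, el 11) then el 6 else if (x, y) = (el 5, el 11) then el 7 else el 4

theorem c0_atom : ∀ x y, IsAtom (c0 x y) := by decide +kernel

def cc (x y : LL) : Atom LL := ⟨c0 x y, c0_atom x y⟩

def ph (x u : LL) : LL :=
  if u = x then el 0 else if rk u = rk x + 1 then c0 x u else if u = el 18 then el 17
  else if (x, u) ∈ [(el 2, el 14), (el 3, el 16), (el 1, el 16)] then el 13 else el 12

def jn (x : LL) : LL :=
  ([18, 18, 18, 18, 17, 17, 12, 12, 14, 15, 16, 17, 17, 17, 18, 18, 18, 18, 18] : List (Fin 19)).getD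
    (Fin.val x) x

theorem jn_ub : ∀ x y : LL, x ⋖ y → y ≤ jn x := by decide +kernel

theorem emb1 : ∀ x : LL, x ≠ ⊥ → x ≠ ⊤ → ∀ u, x ≤ u ∧ u ≤ jn x → rk (ph x u) + rk x = rk u ∧
    ∀ v, x ≤ v ∧ v ≤ jn x → (ph x u ≤ ph x v ↔ u ≤ v) ∧
      (u ⋖ v → ph x u ⋖ ph x v ∧ c0 (ph x u) (ph x v) = c0 u v) := by decide +kernel

theorem atoms_top : ∀ z : LL, (∀ y, IsAtom y → y ≤ z) → ⊤ ≤ z := by decide +kernel

def at' (n : Fin 19) : Atom LL := cc ⊥ (el n)

def g (n : Fin 19) : PresentedMonoid (Rel cc) := PresentedMonoid.of _ (at' n)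

theorem two (s t z a b : Fin 19) (h : (⊥ ⋖ (at' s).1 ∧ (at' s).1 ⋖ el z ∧ ⊥ ⋖ (at' t).1 ∧ (at' t).1 ⋖ el z) ∧
    el z = (at' s).1 ⊔ (at' t).1 ∧ cc ⊥ (at' s).1 = at' s ∧ cc ⊥ (at' t).1 = at' t ∧
    cc (at' s).1 (el z) = at' a ∧ cc (at' t).1 (el z) = at' b) : g s * g a = g t * g b := by
  obtain ⟨⟨h1, h2, h3, h4⟩, h5, h6, h7, h8, h9⟩ := h
  refine (Con.eq _).2 (ConGen.Rel.of _ _ ⟨at' s, at' t, [el z], [el z], ⟨by simp [h1, h2], h5⟩,
    ⟨by simp [h3, h4], h5⟩, ?_, ?_⟩)
  · simp only [word, List.tail_cons, List.zipWith_cons_cons, List.zipWith_nil_right, h6, h8]; rfl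
  · simp only [word, List.tail_cons, List.zipWith_cons_cons, List.zipWith_nil_right, h7, h9]; rfl

theorem result : ∃ (L : Type) (_ : Finite L) (_ : Lattice L) (_ : BoundedOrder L) (rk : L → ℕ)
    (c : L → L → Atom L), Graded rk ∧ IsLUB {s : L | IsAtom s} ⊤ ∧ PreUpho rk c ∧
    ∃ a u v : PresentedMonoid (Rel c), a * u = a * v ∧ u ≠ v := by
  have gr : Graded rk := ⟨rfl, by decide +kernel⟩
  refine ⟨LL, inferInstance, inferInstance, inferInstance, rk, cc, gr,
    ⟨fun _ _ => le_top, fun z hz => atoms_top z fun y hy => hz hy⟩,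
    ⟨by decide +kernel, fun x h0 h1 z hz => ?_⟩, g 1 * g 4, g 6, g 7, ?_, fun h => ?_⟩
  · have hz' : z ≤ jn x := hz.2 fun y hy => jn_ub x y hy
    have m : ∀ {u}, u ∈ Set.Icc x z → x ≤ u ∧ u ≤ jn x := fun hu => ⟨hu.1, hu.2.trans hz'⟩
    exact ⟨ph x, fun u hu v hv => ((emb1 x h0 h1 u (m hu)).2 v (m hv)).1,
      fun u hu => (emb1 x h0 h1 u (m hu)).1, fun u hu v hv h =>
        (((emb1 x h0 h1 u (m hu)).2 v (m hv)).2 h).imp_right Subtype.ext⟩
  · have p := two 1 2 8 4 5 (by decide +kernel)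
    have r := two 2 3 9 4 4 (by decide +kernel)
    have q := two 3 1 10 5 5 (by decide +kernel)
    have m := two 4 5 11 6 7 (by decide +kernel)
    calc g 1 * g 4 * g 6 = g 1 * g 5 * g 7 := by rw [mul_assoc, m, mul_assoc]
      _ = g 3 * g 4 * g 6 := by rw [← q, mul_assoc, ← m, mul_assoc]
      _ = g 2 * g 5 * g 7 := by rw [← r, mul_assoc, m, mul_assoc]
      _ = g 1 * g 4 * g 7 := by rw [p]
  · have := (rel_short gr cc ((Con.eq _).1 h)).2 le_rfl
    exact absurd (FreeMonoid.of_injective this) (by decide +kernel)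

end Pool.Agent.Results.MP_4cc90a_co.Counter
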